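import Mathlib
import Pool.Agent.WRNC.Main
import Pool.Agent.Helper292.ForceCH

set_option autoImplicit false

/-!
# A weak Radon-Nikodym compactum without convergent sequences, under CH

The construction. `I` is the order of the countable ordinals. To every node `(ξ, s)`,
`s : I → Bool` (only `s` below `ξ` matters), a function `w ξ s` on `{ζ | ζ < ξ}` is attached by
recursion on `ξ` with the help of an enumeration of all sequences of countable ordinals. A branch
`y : I → Bool` gives the point `hat y` of `{0, 1} ^ (I × (I → Bool))` whose coordinate at `(ξ, s)` is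
`y ξ` if `y` and `s` agree below `ξ` and `w ξ s ζ` if `ζ < ξ` is their first difference.
`K` is the set of all points `hat y`. It is closed (file `B2`), no sequence of different points
converges (file `B3`), the coordinates and their absolutely convex combinations have pointwise
convergent subsequences (file `C4`), and the interpolation space between `ℓ₁` and `C(K)` contains no
`ℓ₁` (files `D3a`-`D3c`), while `K` embeds into the unit ball of its dual with the weak* topology.
-/

namespace Pool.Agent.Results.MP_20791f_an.ConsistentlyNo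

open Filter Topology
open Pool.Agent.Helper292.ForceCH (OmegaOnePreserved CHHolds)

/-- The Banach space `E` contains `ℓ¹`: some closed linear subspace of `E` is linearly isomorphic
to `ℓ¹`. -/
def ContainsEllOne (E : Type) [NormedAddCommGroup E] [NormedSpace ℝ E] : Prop :=
  ∃ F : Submodule ℝ E, IsClosed (F : Set E) ∧ Nonempty (lp (fun _ : ℕ => ℝ) 1 ≃L[ℝ] F)

/-- `K` is weak Radon-Nikodym: there is a real Banach space `E` not containing `ℓ¹` such that `K` is
homeomorphic to a weak*-compact subset of the dual of `E`. -/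
def WeakRadonNikodym (K : Type) [TopologicalSpace K] : Prop :=
  ∃ (E : Type) (_ : NormedAddCommGroup E) (_ : NormedSpace ℝ E) (_ : CompleteSpace E),
    ¬ ContainsEllOne E ∧ ∃ S : Set (WeakDual ℝ E), IsCompact S ∧ Nonempty (K ≃ₜ S)

theorem not_containsEllOne {E : Type} [NormedAddCommGroup E] [NormedSpace ℝ E]
    (h : ¬ ∃ (x : ℕ → E) (M : ℝ) (δ : ℝ), (∀ n, ‖x n‖ ≤ M) ∧ 0 < δ ∧
          ∀ (n : ℕ) (a : ℕ → ℝ),
            δ * ∑ i ∈ Finset.range n, |a i| ≤ ‖∑ i ∈ Finset.range n, a i • x i‖) :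
    ¬ ContainsEllOne E := by
  classical
  rintro ⟨F, _, ⟨e⟩⟩
  apply h
  set u : ℕ → lp (fun _ : ℕ => ℝ) 1 := fun n => lp.single 1 n (1 : ℝ) with hu
  have hsum : ∀ (n : ℕ) (a : ℕ → ℝ),
      ‖∑ i ∈ Finset.range n, a i • u i‖ = ∑ i ∈ Finset.range n, |a i| := by
    intro n a
    have h1 : ∑ i ∈ Finset.range n, a i • u i
        = ∑ i ∈ Finset.range n, lp.single 1 i (a i) := by
      refine Finset.sum_congr rfl fun i _ => ?_
      rw [hu]
      simp only
      rw [← lp.single_smul]
      simp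
    rw [h1]
    have h2 := lp.norm_sum_single (p := 1) (by norm_num) (fun i : ℕ => a i) (Finset.range n)
    simpa using h2
  refine ⟨fun n => (e (u n) : E), ‖(e : lp (fun _ : ℕ => ℝ) 1 →L[ℝ] F)‖ * 1,
    (‖(e.symm : F →L[ℝ] lp (fun _ : ℕ => ℝ) 1)‖ + 1)⁻¹, ?_, by positivity, ?_⟩
  · intro n
    have h2 : ‖u n‖ = 1 := by
      rw [hu]
      simp [lp.norm_single]
    calc ‖(e (u n) : E)‖ = ‖(e : lp (fun _ : ℕ => ℝ) 1 →L[ℝ] F) (u n)‖ := rfl
      _ ≤ ‖(e : lp (fun _ : ℕ => ℝ) 1 →L[ℝ] F)‖ * ‖u n‖ := ContinuousLinearMap.le_opNorm _ _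
      _ = _ := by rw [h2]
  · intro n a
    have h3 : ∑ i ∈ Finset.range n, a i • (e (u i) : E)
        = ((e (∑ i ∈ Finset.range n, a i • u i) : F) : E) := by
      rw [map_sum]
      simp
    rw [h3]
    set v := ∑ i ∈ Finset.range n, a i • u i with hv
    have h4 : ‖v‖ ≤ ‖(e.symm : F →L[ℝ] lp (fun _ : ℕ => ℝ) 1)‖ * ‖e v‖ := by
      have := ContinuousLinearMap.le_opNorm (e.symm : F →L[ℝ] lp (fun _ : ℕ => ℝ) 1) (e v)
      simpa using this
    rw [← hsum n a, ← hv]
    have h5 : 0 ≤ ‖(e.symm : F →L[ℝ] lp (fun _ : ℕ => ℝ) 1)‖ :=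
      ContinuousLinearMap.opNorm_nonneg _
    rw [inv_mul_le_iff₀ (by positivity)]
    have h6 : ‖((e v : F) : E)‖ = ‖e v‖ := rfl
    rw [h6]
    nlinarith [norm_nonneg (e v)]

/-- If no injective sequence converges, then all convergent sequences are eventually constant. -/
theorem eventually_const {K : Type} [TopologicalSpace K] [T2Space K]
    (h : ¬ ∃ (x : ℕ → K) (y : K), Function.Injective x ∧ Tendsto x atTop (𝓝 y))
    (x : ℕ → K) (y : K) (hx : Tendsto x atTop (𝓝 y)) : ∀ᶠ n in atTop, x n = y := by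
  by_contra hne
  rw [not_eventually] at hne
  obtain ⟨φ, hφ, hφ'⟩ := extraction_of_frequently_atTop hne
  have h1 : Tendsto (x ∘ φ) atTop (𝓝 y) := hx.comp hφ.tendsto_atTop
  -- for each point `z ≠ y` only finitely many terms are equal to `z`
  have h2 : ∀ n, ∀ᶠ k in atTop, (x ∘ φ) k ≠ (x ∘ φ) n := by
    intro n
    exact h1.eventually_ne (Ne.symm (hφ' n))
  have h3 : ∀ n, ∃ N, ∀ k ≥ N, ∀ m ≤ n, (x ∘ φ) k ≠ (x ∘ φ) m := by
    intro n
    have h4 : ∀ᶠ k in atTop, ∀ m ∈ Set.Iic n, (x ∘ φ) k ≠ (x ∘ φ) m :=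
      (Set.finite_Iic n).eventually_all.2 fun m _ => h2 m
    exact eventually_atTop.1 h4
  choose N hN using h3
  let ψ : ℕ → ℕ := fun n => Nat.rec 0 (fun _ p => max (p + 1) (N p)) n
  have hψs : ∀ n, ψ (n + 1) = max (ψ n + 1) (N (ψ n)) := fun n => rfl
  have hψ : StrictMono ψ := strictMono_nat_of_lt_succ fun n => by
    rw [hψs]
    exact lt_of_lt_of_le (Nat.lt_succ_self _) (le_max_left _ _)
  refine h ⟨fun n => x (φ (ψ n)), y, ?_, h1.comp hψ.tendsto_atTop⟩
  have h5 : ∀ m n, m < n → x (φ (ψ n)) ≠ x (φ (ψ m)) := by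
    intro m n hmn
    obtain ⟨k, rfl⟩ : ∃ k, n = k + 1 := ⟨n - 1, by omega⟩
    have h6 : N (ψ k) ≤ ψ (k + 1) := by
      rw [hψs]
      exact le_max_right _ _
    exact hN (ψ k) (ψ (k + 1)) h6 (ψ m) (hψ.monotone (by omega))
  intro m n hmn
  rcases lt_trichotomy m n with h6 | h6 | h6
  · exact absurd hmn.symm (h5 m n h6)
  · exact h6
  · exact absurd hmn (h5 n m h6)

/-- **Main theorem.** (A) There is a notion of forcing all of whose conditions force that `ω₁` is
preserved and that the continuum hypothesis holds. (B) If the continuum hypothesis holds, then there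
is an infinite weak Radon-Nikodym compact space in which every convergent sequence is eventually
constant. -/
theorem result :
    (∃ (P : Type) (_ : Preorder P), Nonempty P ∧
      ∀ p : P, p ∈ OmegaOnePreserved P ∧ p ∈ CHHolds P) ∧
    (Cardinal.aleph.{0} 1 = Cardinal.continuum →
      ∃ (K : Type) (_ : TopologicalSpace K), CompactSpace K ∧ T2Space K ∧ Infinite K ∧
        WeakRadonNikodym K ∧
        ∀ (x : ℕ → K) (y : K), Tendsto x atTop (𝓝 y) → ∀ᶠ n in atTop, x n = y) := by
  refine ⟨?_, fun hCH => ?_⟩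
  · obtain ⟨P, hP, hne, h⟩ := Pool.Agent.Helper292.ForceCH.exists_forcing
    exact ⟨P, hP, hne, fun p => ⟨(h p).1, (h p).2.2⟩⟩
  · obtain ⟨K, k1, k2, k3, k4, E, e1, e2, e3, h1, h2, h3⟩ := Pool.Agent.WRNC.main_CH
      (fun T _ _ Γ u h1 h2 μ η hη => Pool.Agent.WRNC.PtWeak.pt_weak u h1 h2 μ η hη) hCH
    exact ⟨K, k1, k2, k3, k4, ⟨E, e1, e2, e3, not_containsEllOne h1, h2⟩,
      fun x y hx => eventually_const h3 x y hx⟩

end Pool.Agent.Results.MP_20791f_an.ConsistentlyNo
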